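import Pool.Agent.W425.SL.Defs
import Pool.Agent.W525.SM.A

set_option autoImplicit false

/-! Project SM-local, part L2: the algebraic relation in the local case. -/

namespace Pool.Agent.W596.SL

open MvPolynomial Pool.Agent.H628R4.TZ Pool.Agent.W425.SM Pool.Agent.W525.SM Pool.Agent.W425.SL
open Pool.Agent.H628R4.TP (weylS)

variable {r N : ℕ}

/-- reindexing a sum over compositions by the differences -/
lemma reindex (u : Fin r → ℕ) (k : ℕ) (S : Finset (Fin r → ℤ)) (F : (Fin r → ℕ) → ℂ)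
    (hS : ∀ c ∈ S, ∑ j, c j = k)
    (hF : ∀ γ : Fin r → ℕ, ∑ j, γ j = ∑ j, u j + k → F γ ≠ 0 →
      (fun j => (γ j : ℤ) - u j) ∈ S) :
    ∑ γ ∈ Finset.piAntidiag Finset.univ (∑ j, u j + k), F γ = ∑ c ∈ S,
      if ∀ j, 0 ≤ (u j : ℤ) + c j then F (fun j => ((u j : ℤ) + c j).toNat) else 0 := by
  classical
  rw [← Finset.sum_filter]
  have h6 : ∑ γ ∈ Finset.piAntidiag Finset.univ (∑ j, u j + k), F γ =
      ∑ γ ∈ (Finset.piAntidiag Finset.univ (∑ j, u j + k)).filter
        (fun γ => (fun j => (γ j : ℤ) - u j) ∈ S), F γ := by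
    rw [Finset.sum_filter_of_ne]
    intro γ hγ hne
    exact hF γ (mem_anti.1 hγ) hne
  rw [h6]
  refine Finset.sum_bij' (fun γ _ => fun j => (γ j : ℤ) - u j)
    (fun c _ => fun j => ((u j : ℤ) + c j).toNat) ?_ ?_ ?_ ?_ ?_
  · intro γ hγ
    rw [Finset.mem_filter] at hγ ⊢
    refine ⟨hγ.2, fun j => ?_⟩
    show 0 ≤ (u j : ℤ) + ((γ j : ℤ) - u j)
    omega
  · intro c hc
    rw [Finset.mem_filter] at hc ⊢
    have h9 := hS c hc.1
    have h10 : ∀ j, ((((u j : ℤ) + c j).toNat : ℕ) : ℤ) = (u j : ℤ) + c j :=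
      fun j => Int.toNat_of_nonneg (hc.2 j)
    refine ⟨mem_anti.2 ?_, ?_⟩
    · have : ((∑ j, ((u j : ℤ) + c j).toNat : ℕ) : ℤ) = ((∑ j, u j + k : ℕ) : ℤ) := by
        rw [Nat.cast_sum, Finset.sum_congr rfl fun j _ => h10 j, Finset.sum_add_distrib,
          h9]
        push_cast
        ring
      exact_mod_cast this
    · have : (fun j => ((((u j : ℤ) + c j).toNat : ℕ) : ℤ) - u j) = c := by
        funext j
        rw [h10]
        ring
      rw [this]
      exact hc.1
  · intro γ _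
    funext j
    simp
  · intro c hc
    rw [Finset.mem_filter] at hc
    funext j
    have := Int.toNat_of_nonneg (hc.2 j)
    simp only
    omega
  · intro γ _
    congr 1
    funext j
    simp

/-- clearing the factorials -/
lemma clear (a : Fin r → ℂ) (ha : ∀ j, a j ≠ 0) (u : Fin r → ℕ) (M k : ℕ) (c : Fin r → ℤ)
    (hc : ∑ j, c j = k) (hM : ∀ j, c j ≤ M) (hpos : ∀ j, 0 ≤ (u j : ℤ) + c j) :
    (∏ j, ((u j + M).factorial : ℂ)) * cf a (fun j => ((u j : ℤ) + c j).toNat) =
      (((∑ j, u j + k).factorial : ℕ) : ℂ) * ((∏ j, a j ^ c j) * ∏ j, a j ^ u j) *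
        ∏ j, eval (fun m => (u m : ℂ)) (ff M j (c j) * fq M j (c j)) := by
  have h10 : ∀ j, ((((u j : ℤ) + c j).toNat : ℕ) : ℤ) = (u j : ℤ) + c j :=
    fun j => Int.toNat_of_nonneg (hpos j)
  set γ : Fin r → ℕ := fun j => ((u j : ℤ) + c j).toNat with hγ
  have hγS : ∑ j, γ j = ∑ j, u j + k := by
    have : ((∑ j, γ j : ℕ) : ℤ) = ((∑ j, u j + k : ℕ) : ℤ) := by
      rw [Nat.cast_sum, Finset.sum_congr rfl fun j _ => h10 j, Finset.sum_add_distrib, hc]
      push_cast
      ring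
    exact_mod_cast this
  have h18 : (∏ j, ((u j + M).factorial : ℂ)) = (∏ j, ((γ j).factorial : ℂ)) *
      ∏ j, eval (fun m => (u m : ℂ)) (ff M j (c j) * fq M j (c j)) := by
    rw [← Finset.prod_mul_distrib]
    exact (Finset.prod_congr rfl fun j _ => eval_fc u M j (c j) (hM j) (hpos j)).symm
  have h19 : (((∑ j, u j + k).factorial : ℕ) : ℂ) = (∏ j, ((γ j).factorial : ℂ)) *
      (Nat.multinomial Finset.univ γ : ℂ) := by
    have := Nat.multinomial_spec Finset.univ γ
    rw [hγS] at this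
    rw [← this]
    push_cast
    ring
  have h20 : ∏ j, a j ^ γ j = (∏ j, a j ^ c j) * ∏ j, a j ^ u j := by
    rw [← Finset.prod_mul_distrib]
    refine Finset.prod_congr rfl fun j _ => ?_
    rw [← zpow_natCast, h10 j, add_comm, zpow_add₀ (ha j), zpow_natCast]
  rw [h18, cf, h20, h19]
  ring

lemma shift_ex (v : Fin r → Fin N → ℕ) (u γ : Fin r → ℕ) (x : Fin N) :
    ((Ex v γ x : ℕ) : ℤ) = (Ex v u x : ℕ) + Sh v (fun j => (γ j : ℤ) - u j) x := by
  rw [Ex_apply, Ex_apply, Sh]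
  push_cast
  rw [← Finset.sum_add_distrib]
  exact Finset.sum_congr rfl fun j _ => by ring

lemma Sh_inj' {v : Fin r → Fin N → ℕ} (hv : Ind v) (k : ℤ) :
    Set.InjOn (Sh v) {c | ∑ j, c j = k} := by
  intro c hc d hd h
  have h2 := ind_zero hv (fun j => c j - d j) (by
    rw [Finset.sum_sub_distrib, sub_eq_zero]
    exact hc.trans hd.symm) (by
    intro i
    have := congrFun h i
    simp only [sub_mul]
    rw [Finset.sum_sub_distrib, sub_eq_zero]
    exact this)
  funext j
  have := congrFun h2 j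
  simp only [Pi.zero_apply] at this
  omega

/-- The right side. -/
theorem rhs_rel {v : Fin r → Fin N → ℕ} (hv : Ind v) (a : Fin r → ℂ) (ha : ∀ j, a j ≠ 0)
    (P : ℕ →₀ weylS (Fin N)) :
    ∃ (S : Finset (Fin r → ℤ)) (q : ℕ → (Fin r → ℤ) → MvPolynomial (Fin N) ℂ),
      (∀ c ∈ S, ∑ j, c j = 1) ∧
      ∀ (M : ℕ), (∀ c ∈ S, ∀ j, c j ≤ M) → ∀ (u : Fin r → ℕ),
        (∏ j, ((u j + M).factorial : ℂ)) * coeff (Ex v u)
          (P.sum fun m Q => (((∑ j, u j : ℕ) : ℂ) ^ m) •
            (Q : Module.End ℂ (MvPolynomial (Fin N) ℂ)) (sparse v a ^ (∑ j, u j + 1))) =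
          ((((∑ j, u j).factorial : ℕ) : ℂ) * ∏ j, a j ^ u j) *
          ((((∑ j, u j : ℕ) : ℂ) + 1) * ∑ c ∈ S,
          (∏ j, a j ^ c j) *
          (∏ j, eval (fun m => (u m : ℂ)) (ff M j (c j) * fq M j (c j))) *
          (∏ i, (((∑ j, u j * v j i : ℕ) + Sh v c i).toNat.descFactorial
            (Sh v c i).toNat : ℂ)) *
          ∑ m ∈ P.support, ((∑ j, u j : ℕ) : ℂ) ^ m *
            eval (fun x => ((Ex v u x : ℕ) : ℂ) + ((Sh v c x : ℤ) : ℂ)) (q m c)) := by
  classical
  choose Q hQf hQ using fun (T : weylS (Fin N)) =>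
    Pool.Agent.H628R4.TP.act_weyl (T : Module.End ℂ (MvPolynomial (Fin N) ℂ)) T.2
  have hfin : ({c : Fin r → ℤ | ∑ j, c j = 1 ∧
      ∃ m ∈ P.support, Q (P m) (Sh v c) ≠ 0} : Set _).Finite := by
    have h1 : ((⋃ m ∈ P.support, ({c : Fin r → ℤ | ∑ j, c j = 1} ∩
        (Sh v) ⁻¹' Function.support (Q (P m)))) : Set _).Finite :=
      Set.Finite.biUnion P.support.finite_toSet fun m _ => by
        rw [Set.inter_comm]
        exact Set.Finite.of_finite_image (((hQf (P m))).subset (by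
          rintro _ ⟨c, hc, rfl⟩
          exact hc.1)) ((Sh_inj hv).mono Set.inter_subset_right)
    refine h1.subset fun c hc => ?_
    obtain ⟨h0, m, hm, hq⟩ := hc
    simp only [Set.mem_iUnion]
    exact ⟨m, hm, h0, hq⟩
  refine ⟨hfin.toFinset, fun m c => Q (P m) (Sh v c), fun c hc => ?_,
    fun M hM u => ?_⟩
  · exact ((Set.Finite.mem_toFinset hfin).1 hc).1
  set n := ∑ j, u j with hn
  -- the coefficient for the shift
  set F : (Fin r → ℕ) → ℂ := fun γ =>
    cf a γ * ∑ m ∈ P.support, (n : ℂ) ^ m *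
      (eval (fun x => ((Ex v γ x : ℕ) : ℂ)) (Q (P m) (Sh v fun j => (γ j : ℤ) - u j)) *
      ∏ x, ((Ex v γ x).descFactorial (Sh v (fun j => (γ j : ℤ) - u j) x).toNat : ℂ)) with hF
  have hsh := shift_ex v u
  have h2 : coeff (Ex v u) (P.sum fun m Q => ((n : ℂ) ^ m) •
            (Q : Module.End ℂ (MvPolynomial (Fin N) ℂ)) (sparse v a ^ (n + 1))) =
      ∑ γ ∈ Finset.piAntidiag Finset.univ (n+1), F γ := by
    rw [Finsupp.sum, coeff_sum]
    have h3 : ∀ m ∈ P.support, coeff (Ex v u) (((n : ℂ) ^ m) •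
        ((P m : weylS (Fin N)) : Module.End ℂ _) (sparse v a ^ (n+1))) =
        ∑ γ ∈ Finset.piAntidiag Finset.univ (n+1), (n : ℂ) ^ m * (cf a γ *
        (eval (fun x => ((Ex v γ x : ℕ) : ℂ)) (Q (P m) (Sh v fun j => (γ j : ℤ) - u j)) *
        ∏ x, ((Ex v γ x).descFactorial
          (Sh v (fun j => (γ j : ℤ) - u j) x).toNat : ℂ))) := by
      intro m _
      rw [coeff_smul, smul_eq_mul, pow_expand, map_sum, coeff_sum, Finset.mul_sum]
      refine Finset.sum_congr rfl fun γ _ => ?_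
      congr 1
      have h4 : (monomial (Ex v γ) (cf a γ) : MvPolynomial (Fin N) ℂ) =
          (cf a γ) • monomial (Ex v γ) 1 := by
        rw [smul_monomial, smul_eq_mul, mul_one]
      rw [h4, map_smul, coeff_smul, smul_eq_mul, hQ (P m) _ _ _ (hsh γ)]
    rw [Finset.sum_congr rfl h3, Finset.sum_comm]
    refine Finset.sum_congr rfl fun γ _ => ?_
    rw [hF]
    simp only [Finset.mul_sum]
    exact Finset.sum_congr rfl fun m _ => by ring
  have h5 := reindex u 1 hfin.toFinset F (fun c hc => by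
      have := ((Set.Finite.mem_toFinset hfin).1 hc).1
      rw [this]; rfl) (by
    intro γ hγ hne
    rw [Set.Finite.mem_toFinset]
    refine ⟨?_, ?_⟩
    · rw [Finset.sum_sub_distrib, ← Nat.cast_sum, ← Nat.cast_sum, hγ]
      push_cast
      ring
    · by_contra hno
      push Not at hno
      apply hne
      rw [hF]
      simp only
      rw [Finset.sum_eq_zero, mul_zero]
      intro m hm
      rw [hno m hm]
      simp)
  rw [← hn] at h5
  rw [h2, h5, Finset.mul_sum, Finset.mul_sum, Finset.mul_sum]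
  refine Finset.sum_congr rfl fun c hc => ?_
  split_ifs with hpos
  swap
  · push Not at hpos
    obtain ⟨j, hj⟩ := hpos
    have hz : ∏ j, eval (fun m => (u m : ℂ)) (ff M j (c j) * fq M j (c j)) = 0 :=
      Finset.prod_eq_zero (Finset.mem_univ j) (eval_fc_zero u M j (c j) hj)
    rw [hz]
    simp
  have h9 := ((Set.Finite.mem_toFinset hfin).1 hc).1
  have h10 : ∀ j, ((((u j : ℤ) + c j).toNat : ℕ) : ℤ) = (u j : ℤ) + c j :=
    fun j => Int.toNat_of_nonneg (hpos j)
  have hcl := clear a ha u M 1 c (by rw [h9]; rfl) (hM c hc) hpos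
  rw [← hn] at hcl
  set γ : Fin r → ℕ := fun j => ((u j : ℤ) + c j).toNat with hγ
  have hc' : (fun j => (γ j : ℤ) - u j) = c := by
    funext j
    rw [hγ]
    simp only
    rw [h10]
    ring
  have hshc := hsh γ
  rw [hc'] at hshc
  rw [hF]
  simp only
  rw [hc']
  have h14 : ∀ x, ((Ex v γ x : ℕ) : ℂ) = ((Ex v u x : ℕ) : ℂ) + ((Sh v c x : ℤ) : ℂ) := by
    intro x
    exact_mod_cast hshc x
  simp only [h14]
  have h15 : ∏ x, ((Ex v γ x).descFactorial (Sh v c x).toNat : ℂ) =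
      ∏ i, (((∑ j, u j * v j i : ℕ) + Sh v c i).toNat.descFactorial
            (Sh v c i).toNat : ℂ) := by
    refine Finset.prod_congr rfl fun i _ => ?_
    have h16 := hshc i
    rw [Ex_apply v u] at h16
    have h17 : Ex v γ i = (((∑ j, u j * v j i : ℕ) : ℤ) + Sh v c i).toNat := by omega
    rw [h17]
  have h12 : (((n + 1).factorial : ℕ) : ℂ) = ((n : ℂ) + 1) * (n.factorial : ℂ) := by
    rw [Nat.factorial_succ]; push_cast; ring
  rw [h12] at hcl
  rw [h15, ← mul_assoc, hcl]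
  simp only [Finset.mul_sum]
  refine Finset.sum_congr rfl fun m _ => ?_
  ring

/-- the exponent subtracted by `c` -/
noncomputable def gam (v : Fin r → Fin N → ℕ) (c : Fin r → ℤ) : Fin N →₀ ℕ :=
  Finsupp.equivFunOnFinite.symm (fun i => (-(Sh v c i)).toNat)

open Classical in
/-- the coefficient of `A` belonging to `c` -/
noncomputable def alf (v : Fin r → Fin N → ℕ) (A : MvPolynomial (Fin N) ℂ) (c : Fin r → ℤ) : ℂ :=
  if ∀ i, Sh v c i ≤ 0 then coeff (gam v c) A else 0

/-- The left side. -/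
theorem lhs_rel {v : Fin r → Fin N → ℕ} (hv : Ind v) (a : Fin r → ℂ) (ha : ∀ j, a j ≠ 0)
    (A : MvPolynomial (Fin N) ℂ) :
    ∃ (S : Finset (Fin r → ℤ)), (∀ c, c ∈ S ↔ ∑ j, c j = 0 ∧ alf v A c ≠ 0) ∧
      ∀ (M : ℕ), (∀ c ∈ S, ∀ j, c j ≤ M) → ∀ (u : Fin r → ℕ),
        (∏ j, ((u j + M).factorial : ℂ)) * coeff (Ex v u) (A * sparse v a ^ (∑ j, u j)) =
          ((((∑ j, u j).factorial : ℕ) : ℂ) * ∏ j, a j ^ u j) *
          ∑ c ∈ S, alf v A c * (∏ j, a j ^ c j) *
          (∏ j, eval (fun m => (u m : ℂ)) (ff M j (c j) * fq M j (c j))) := by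
  classical
  have hfin : ({c : Fin r → ℤ | ∑ j, c j = 0 ∧ alf v A c ≠ 0} : Set _).Finite := by
    have h1 : (((fun g : Fin N →₀ ℕ => (fun i => -(g i : ℤ))) '' (A.support : Set (Fin N →₀ ℕ)))
      : Set (Fin N → ℤ)).Finite := (A.support.finite_toSet).image _
    refine Set.Finite.of_finite_image (h1.subset ?_) ((Sh_inj' hv 0).mono fun c hc => hc.1)
    rintro _ ⟨c, ⟨-, hc⟩, rfl⟩
    unfold alf at hc
    split_ifs at hc with h0
    · refine ⟨gam v c, mem_support_iff.2 hc, ?_⟩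
      funext i
      have := h0 i
      simp only [gam, Finsupp.equivFunOnFinite_symm_apply_apply]
      omega
    · exact absurd rfl hc
  refine ⟨hfin.toFinset, fun c => Set.Finite.mem_toFinset hfin, fun M hM u => ?_⟩
  have h2 : coeff (Ex v u) (A * sparse v a ^ (∑ j, u j)) =
      ∑ γ ∈ Finset.piAntidiag Finset.univ (∑ j, u j + 0),
        alf v A (fun j => (γ j : ℤ) - u j) * cf a γ := by
    rw [pow_expand, Finset.mul_sum, coeff_sum, add_zero]
    refine Finset.sum_congr rfl fun γ _ => ?_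
    rw [coeff_mul_monomial']
    have hsh := shift_ex v u γ
    unfold alf
    by_cases hle : Ex v γ ≤ Ex v u
    · have h3 : ∀ i, Sh v (fun j => (γ j : ℤ) - u j) i ≤ 0 := by
        intro i
        have h4 := hle i
        have h5 := hsh i
        omega
      rw [if_pos hle, if_pos h3]
      congr 2
      ext i
      have h4 := hle i
      have h5 := hsh i
      simp only [gam, Finsupp.equivFunOnFinite_symm_apply_apply, Finsupp.tsub_apply]
      omega
    · have h3 : ¬ ∀ i, Sh v (fun j => (γ j : ℤ) - u j) i ≤ 0 := by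
        intro h4
        apply hle
        intro i
        have h5 := hsh i
        have h6 := h4 i
        omega
      rw [if_neg hle, if_neg h3, zero_mul]
  have h5 := reindex u 0 hfin.toFinset
    (fun γ => alf v A (fun j => (γ j : ℤ) - u j) * cf a γ) (fun c hc => by
      have := ((Set.Finite.mem_toFinset hfin).1 hc).1
      rw [this]; rfl) (by
    intro γ hγ hne
    rw [Set.Finite.mem_toFinset]
    refine ⟨?_, ?_⟩
    · rw [Finset.sum_sub_distrib, ← Nat.cast_sum, ← Nat.cast_sum, hγ]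
      push_cast
      ring
    · exact left_ne_zero_of_mul hne)
  rw [h2, h5, Finset.mul_sum, Finset.mul_sum]
  refine Finset.sum_congr rfl fun c hc => ?_
  split_ifs with hpos
  swap
  · push Not at hpos
    obtain ⟨j, hj⟩ := hpos
    have hz : ∏ j, eval (fun m => (u m : ℂ)) (ff M j (c j) * fq M j (c j)) = 0 :=
      Finset.prod_eq_zero (Finset.mem_univ j) (eval_fc_zero u M j (c j) hj)
    rw [hz]
    simp
  have h9 := ((Set.Finite.mem_toFinset hfin).1 hc).1
  have hcl := clear a ha u M 0 c (by rw [h9]; rfl) (hM c hc) hpos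
  rw [add_zero] at hcl
  have hc' : (fun j => (((((u j : ℤ) + c j).toNat) : ℕ) : ℤ) - u j) = c := by
    funext j
    rw [Int.toNat_of_nonneg (hpos j)]
    ring
  rw [hc', mul_left_comm, hcl]
  ring

lemma alf_zero {v : Fin r → Fin N → ℕ} (A : MvPolynomial (Fin N) ℂ) (hA : constantCoeff A = 1) :
    alf v A 0 = 1 := by
  classical
  have h0 : ∀ i, Sh v 0 i = 0 := by intro i; simp [Sh]
  unfold alf
  rw [if_pos (fun i => (h0 i).le)]
  have : gam v 0 = 0 := by
    ext i
    simp [gam, h0]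
  rw [this]
  exact hA

lemma fq_zero (M : ℕ) (j : Fin r) : fq M j 0 = dm M j := by
  unfold fq dm
  rw [if_neg (lt_irrefl 0)]
  simp

theorem taskL2 : TaskL2 := by
  intro r N v a p hv ha hb
  classical
  obtain ⟨A, P, hA, hP⟩ := hb
  obtain ⟨S, q, hS, hq⟩ := rhs_rel hv a ha P
  obtain ⟨S', hS', hl⟩ := lhs_rel hv a ha A
  obtain ⟨M, hM⟩ : ∃ M : ℕ, ∀ c ∈ S ∪ S', ∀ j, c j ≤ M := by
    refine ⟨∑ c ∈ S ∪ S', ∑ j, (c j).toNat, fun c hc j => ?_⟩
    have h1 : (c j).toNat ≤ ∑ j, (c j).toNat :=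
      Finset.single_le_sum (f := fun j => (c j).toNat) (fun _ _ => Nat.zero_le _)
        (Finset.mem_univ j)
    have h2 : ∑ j, (c j).toNat ≤ ∑ c ∈ S ∪ S', ∑ j, (c j).toNat :=
      Finset.single_le_sum (f := fun c : Fin r → ℤ => ∑ j, (c j).toNat)
        (fun _ _ => Nat.zero_le _) hc
    omega
  have hqM := hq M (fun c hc => hM c (Finset.mem_union_left _ hc))
  have hlM := hl M (fun c hc => hM c (Finset.mem_union_right _ hc))
  set σ : MvPolynomial (Fin r) ℂ := ∑ j, X j with hσ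
  set b : Polynomial ℂ := (Polynomial.X + 1) * p with hbdef
  set gx : (Fin r → ℤ) → (Fin N) → MvPolynomial (Fin r) ℂ := fun c i =>
    el v i - 1 + C ((Sh v c i : ℤ) : ℂ) with hgx
  set qt : (Fin r → ℤ) → MvPolynomial (Fin r) ℂ := fun c =>
    C (∏ j, a j ^ c j) * (∏ j, fq M j (c j)) *
      (∏ i ∈ Bc v c, dd v i (Sh v c i).toNat) *
      ∑ m ∈ P.support, σ ^ m * aeval (gx c) (q m c) with hqt
  -- the full relation
  have hfull : Polynomial.aeval σ b * ∑ c ∈ S', (C (alf v A c * ∏ j, a j ^ c j) *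
      ∏ j, (ff M j (c j) * fq M j (c j))) =
      (σ + 1) * ∑ c ∈ S, (∏ i ∈ Bc v c, el v i) *
        ((∏ j, if c j < 0 then X j * dm M j else 1) * qt c) := by
    refine funext_set (fun _ => Set.range (Nat.cast : ℕ → ℂ))
      (fun _ => Set.infinite_range_of_injective Nat.cast_injective) fun x hx => ?_
    choose u hu using fun j => hx j (Set.mem_univ j)
    obtain rfl : x = fun j => (u j : ℂ) := funext fun j => (hu j).symm
    have hσe : eval (fun j => (u j : ℂ)) σ = ((∑ m, u m : ℕ) : ℂ) := by simp [hσ]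
    -- numerical identity
    have hn0 : ((((∑ j, u j).factorial : ℕ) : ℂ)) ≠ 0 := by exact_mod_cast Nat.factorial_ne_zero _
    have ha0 : (∏ j, a j ^ u j) ≠ 0 :=
      Finset.prod_ne_zero_iff.2 fun j _ => pow_ne_zero _ (ha j)
    have hnum : b.eval (((∑ j, u j : ℕ) : ℂ)) * ∑ c ∈ S', alf v A c * (∏ j, a j ^ c j) *
          (∏ j, eval (fun m => (u m : ℂ)) (ff M j (c j) * fq M j (c j))) =
        (((∑ j, u j : ℕ) : ℂ) + 1) * ∑ c ∈ S,
          (∏ j, a j ^ c j) *
          (∏ j, eval (fun m => (u m : ℂ)) (ff M j (c j) * fq M j (c j))) *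
          (∏ i, (((∑ j, u j * v j i : ℕ) + Sh v c i).toNat.descFactorial
            (Sh v c i).toNat : ℂ)) *
          ∑ m ∈ P.support, ((∑ j, u j : ℕ) : ℂ) ^ m *
            eval (fun x => ((Ex v u x : ℕ) : ℂ) + ((Sh v c x : ℤ) : ℂ)) (q m c) := by
      have h1 := congrArg (coeff (Ex v u)) (hP (∑ j, u j))
      rw [mul_assoc, coeff_C_mul] at h1
      refine mul_left_cancel₀ (mul_ne_zero hn0 ha0) ?_
      rw [← hqM u, ← h1, mul_left_comm, ← hlM u]
      ring
    rw [map_mul, eval_paeval, hσe, map_mul, map_add, hσe, map_one, map_sum, map_sum]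
    have e1 : ∑ c ∈ S', eval (fun j => (u j : ℂ)) (C (alf v A c * ∏ j, a j ^ c j) *
        ∏ j, (ff M j (c j) * fq M j (c j))) = ∑ c ∈ S', alf v A c * (∏ j, a j ^ c j) *
          (∏ j, eval (fun m => (u m : ℂ)) (ff M j (c j) * fq M j (c j))) := by
      refine Finset.sum_congr rfl fun c _ => ?_
      rw [map_mul, eval_C, map_prod]
    rw [e1, hnum]
    congr 1
    refine Finset.sum_congr rfl fun c hc => ?_
    have hA : eval (fun j => (u j : ℂ)) (∏ j, if c j < 0 then
          (X j * dm M j : MvPolynomial (Fin r) ℂ) else 1) *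
          eval (fun j => (u j : ℂ)) (∏ j, fq M j (c j)) =
          ∏ j, eval (fun m => (u m : ℂ)) (ff M j (c j) * fq M j (c j)) := by
      simp only [map_prod, ← Finset.prod_mul_distrib, map_mul]
      rfl
    have hB : eval (fun j => (u j : ℂ)) (∏ i ∈ Bc v c, el v i) *
          eval (fun j => (u j : ℂ)) (∏ i ∈ Bc v c, dd v i (Sh v c i).toNat) =
          ∏ i, (((∑ j, u j * v j i : ℕ) + Sh v c i).toNat.descFactorial
              (Sh v c i).toNat : ℂ) := by
      rw [← Finset.prod_subset (Finset.subset_univ (Bc v c))]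
      · rw [map_prod, map_prod, ← Finset.prod_mul_distrib]
        refine Finset.prod_congr rfl fun i hi => ?_
        have h10 : 0 < Sh v c i := by simpa [Bc, Sh] using hi
        rw [eval_dd _ _ _ (by omega), usum]
        have h11 : (((∑ j, u j * v j i : ℕ) : ℤ) + Sh v c i).toNat =
            ∑ j, u j * v j i + (Sh v c i).toNat := by omega
        rw [h11]
      · intro i _ hi
        have h10 : ¬ 0 < Sh v c i := by simpa [Bc, Sh] using hi
        have : (Sh v c i).toNat = 0 := by omega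
        rw [this]; simp
    have hC : eval (fun j => (u j : ℂ)) (∑ m ∈ P.support, σ ^ m * aeval (gx c) (q m c)) =
          ∑ m ∈ P.support, ((∑ m, u m : ℕ) : ℂ) ^ m *
            eval (fun x => ((Ex v u x : ℕ) : ℂ) + ((Sh v c x : ℤ) : ℂ)) (q m c) := by
      rw [map_sum]
      refine Finset.sum_congr rfl fun m _ => ?_
      rw [map_mul, map_pow, hσe, eval_maeval]
      congr 3
      funext x
      rw [hgx]
      simp only [map_add, map_sub, map_one, eval_C]
      rw [eval_el, usum, Ex_apply]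
      push_cast
      ring
    rw [← hA, ← hB, ← hC, hqt]
    simp only [map_mul, eval_C]
    ring
  -- division by `σ + 1`
  have h3 : (σ + 1) ≠ 0 := by
    intro h
    have h4 := congrArg (eval (0 : Fin r → ℂ)) h
    rw [map_add, map_one, map_zero, hσ, map_sum] at h4
    simp at h4
  have hdiv : Polynomial.aeval σ p * ∑ c ∈ S', (C (alf v A c * ∏ j, a j ^ c j) *
      ∏ j, (ff M j (c j) * fq M j (c j))) =
      ∑ c ∈ S, (∏ i ∈ Bc v c, el v i) *
        ((∏ j, if c j < 0 then X j * dm M j else 1) * qt c) := by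
    refine mul_left_cancel₀ h3 ?_
    rw [← hfull, hbdef, map_mul, map_add, Polynomial.aeval_X, map_one]
    ring
  have h0S : (0 : Fin r → ℤ) ∈ S' := by
    rw [hS']
    refine ⟨by simp, ?_⟩
    rw [alf_zero A hA]
    exact one_ne_zero
  refine ⟨M, S, qt, S'.erase 0, fun c => -(C (alf v A c * ∏ j, a j ^ c j) *
    (∏ j, fq M j (c j)) * Polynomial.aeval σ p), hS, ?_, ?_⟩
  · intro c hc
    rw [Finset.mem_erase, hS'] at hc
    obtain ⟨hc0, hcs, hca⟩ := hc
    have h4 : ∀ i, Sh v c i ≤ 0 := by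
      by_contra h5
      apply hca
      unfold alf
      rw [if_neg h5]
    refine ⟨hcs, h4, ?_⟩
    by_contra h5
    push Not at h5
    exact hc0 (ind_zero hv c hcs (fun i => le_antisymm (h4 i) (h5 i)))
  · rw [← hdiv, ← Finset.add_sum_erase S' _ h0S]
    have e0 : C (alf v A 0 * ∏ j, a j ^ (0 : Fin r → ℤ) j) *
        ∏ j, (ff M j ((0 : Fin r → ℤ) j) * fq M j ((0 : Fin r → ℤ) j)) =
        (∏ j, dm M j : MvPolynomial (Fin r) ℂ) := by
      rw [alf_zero A hA]
      simp only [Pi.zero_apply, zpow_zero, Finset.prod_const_one, mul_one, map_one, one_mul]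
      refine Finset.prod_congr rfl fun j _ => ?_
      rw [fq_zero]
      unfold ff
      rw [if_neg (lt_irrefl 0), one_mul]
    rw [e0, mul_add, add_assoc, left_eq_add, Finset.mul_sum, ← Finset.sum_add_distrib]
    refine Finset.sum_eq_zero fun c _ => ?_
    have e1 : ∏ j, (ff M j (c j) * fq M j (c j)) =
        (∏ j, if c j < 0 then (X j * dm M j : MvPolynomial (Fin r) ℂ) else 1) *
          ∏ j, fq M j (c j) := by
      rw [Finset.prod_mul_distrib]
      rfl
    rw [e1]
    ring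

end Pool.Agent.W596.SL
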